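import Pool.Agent.W198.TC.Basic
import Pool.Agent.W198.TC.Stms2

/-! COEF: window sums are Dirichlet polynomials (helper327 for helper198). -/

set_option autoImplicit false

open Complex Filter Topology Set MeasureTheory

namespace TC

lemma coef_gs_half : ∫ y in Ioi (0 : ℝ), gs y = 1 / 2 := by
  have h := integral_gaussian_Ioi (1 / 2)
  have h1 : ∫ y in Ioi (0 : ℝ), gs y =
      (∫ y in Ioi (0 : ℝ), Real.exp (-(1 / 2) * y ^ 2)) / Real.sqrt (2 * Real.pi) := by
    rw [← integral_div]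
    congr 1
    funext x
    unfold gs
    congr 2
    ring
  rw [h1, h]
  have e : Real.pi / (1 / 2) = 2 * Real.pi := by ring
  rw [e]
  have h2 : Real.sqrt (2 * Real.pi) ≠ 0 := by
    have := sqrt_two_pi_ge_one
    linarith
  field_simp

lemma coef_lim {b : ℝ} {h : ℝ → ℝ} (hA : Adm b h) :
    Tendsto (fun M : ℝ => M * ∫ ξ in (0 : ℝ)..1, h ξ * gs (M * ξ)) atTop (𝓝 (h 0 / 2)) := by
  obtain ⟨B, hB⟩ := hA.bdd
  have hlim : Tendsto (fun M : ℝ => ∫ y, (Ioc 0 M).indicator (fun y => h (y / M) * gs y) y) atTop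
      (𝓝 (∫ y, (Ioi (0 : ℝ)).indicator (fun y => h 0 * gs y) y)) := by
    refine tendsto_integral_filter_of_dominated_convergence (fun y => B * gs y) ?_ ?_ ?_ ?_
    · refine Eventually.of_forall fun M => ?_
      refine Measurable.aestronglyMeasurable ?_
      refine Measurable.indicator ?_ measurableSet_Ioc
      exact (hA.meas.comp (measurable_id.div_const M)).mul gs_cont.measurable
    · refine Eventually.of_forall fun M => Eventually.of_forall fun y => ?_
      have hB0 : 0 ≤ B := (abs_nonneg _).trans (hB 0)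
      by_cases hy : y ∈ Ioc 0 M
      · rw [indicator_of_mem hy, norm_mul, Real.norm_eq_abs, Real.norm_of_nonneg (gs_nonneg y)]
        exact mul_le_mul_of_nonneg_right (hB _) (gs_nonneg y)
      · rw [indicator_of_notMem hy, norm_zero]
        exact mul_nonneg hB0 (gs_nonneg y)
    · exact gs_integrable.const_mul B
    · refine Eventually.of_forall fun y => ?_
      by_cases hy : 0 < y
      · have h1 : Tendsto (fun M : ℝ => y / M) atTop (𝓝[>] 0) := by
          rw [tendsto_nhdsWithin_iff]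
          refine ⟨tendsto_const_nhds.div_atTop tendsto_id, ?_⟩
          filter_upwards [eventually_gt_atTop 0] with M hM
          exact div_pos hy hM
        have h2 := (hA.zero.comp h1).mul_const (gs y)
        rw [indicator_of_mem (mem_Ioi.2 hy)]
        refine h2.congr' ?_
        filter_upwards [eventually_ge_atTop y] with M hM
        rw [indicator_of_mem (show y ∈ Ioc 0 M from ⟨hy, hM⟩)]
        rfl
      · rw [indicator_of_notMem (fun h' => hy (mem_Ioi.1 h'))]
        refine tendsto_const_nhds.congr' ?_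
        refine Eventually.of_forall fun M => ?_
        show (0 : ℝ) = (Ioc 0 M).indicator (fun y => h (y / M) * gs y) y
        rw [indicator_of_notMem (fun h' => hy h'.1)]
  have e1 : ∫ y, (Ioi (0 : ℝ)).indicator (fun y => h 0 * gs y) y = h 0 / 2 := by
    rw [integral_indicator measurableSet_Ioi, integral_const_mul, coef_gs_half]
    ring
  rw [e1] at hlim
  refine hlim.congr' ?_
  filter_upwards [eventually_gt_atTop 0] with M hM
  rw [integral_indicator measurableSet_Ioc, ← intervalIntegral.integral_of_le hM.le]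
  have h3 := intervalIntegral.mul_integral_comp_mul_left (a := 0) (b := 1)
    (f := fun y => h (y / M) * gs y) M
  rw [mul_zero, mul_one] at h3
  rw [← h3]
  congr 1
  refine intervalIntegral.integral_congr fun ξ _ => ?_
  rw [mul_div_cancel_left₀ _ hM.ne']

lemma coef_int {h : ℝ → ℝ} {B : ℝ} (hm : Measurable h) (hB : ∀ ξ, |h ξ| ≤ B) {g : ℝ → ℂ}
    (hg : Continuous g) : IntervalIntegrable (fun ξ => (h ξ : ℂ) * g ξ) volume 0 1 := by
  have h1 := (hg.intervalIntegrable (μ := volume) 0 1).1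
  refine ⟨?_, ?_⟩
  · refine h1.bdd_mul (c := B) ?_ ?_
    · exact (measurable_ofReal.comp hm).aestronglyMeasurable
    · refine Eventually.of_forall fun ξ => ?_
      rw [Complex.norm_real, Real.norm_eq_abs]
      exact hB ξ
  · rw [Ioc_eq_empty (by norm_num)]
    exact integrableOn_empty

lemma coef_exp_int {M : ℝ} (hM : 0 < M) : ∫ ξ in (0 : ℝ)..1, Real.exp (-(M * ξ)) ≤ 1 / M := by
  have h1 := intervalIntegral.integral_comp_mul_left (a := 0) (b := 1) Real.exp
    (c := -M) (neg_ne_zero.2 hM.ne')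
  have h2 : ∫ ξ in (0 : ℝ)..1, Real.exp (-(M * ξ)) = ∫ ξ in (0 : ℝ)..1, Real.exp (-M * ξ) := by
    refine intervalIntegral.integral_congr fun ξ _ => ?_
    rw [neg_mul]
  rw [h2, h1, mul_zero, mul_one, integral_exp, Real.exp_zero, smul_eq_mul]
  have h3 : (-M)⁻¹ * (Real.exp (-M) - 1) = (1 - Real.exp (-M)) / M := by
    field_simp
    ring
  rw [h3]
  have := Real.exp_pos (-M)
  gcongr
  linarith

theorem coef : S_COEF := by
  intro C ε η b h hC hε hε2 hη hA
  obtain ⟨B, hB⟩ := hA.bdd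
  have hB0 : 0 ≤ B := (abs_nonneg _).trans (hB 0)
  have h1ε : 0 < 1 - ε := by linarith
  have L1 : Tendsto (fun ℓ : ℝ => ℓ * ∫ ξ in (0 : ℝ)..1, h ξ * gs (((1 - ε) * ℓ) * ξ)) atTop
      (𝓝 (h 0 / (2 * (1 - ε)))) := by
    have h1 := ((coef_lim hA).comp (tendsto_id.const_mul_atTop h1ε)).div_const (1 - ε)
    have e : h 0 / 2 / (1 - ε) = h 0 / (2 * (1 - ε)) := by rw [div_div]
    rw [e] at h1
    refine h1.congr fun ℓ => ?_
    simp only [Function.comp_apply, id]
    field_simp
  have L2 : Tendsto (fun ℓ : ℝ => B * C * (1 / ((1 - ε) * ℓ) +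
      Real.exp (2 * ℓ - (ε / 8 * ℓ) ^ 2 / 4))) atTop (𝓝 0) := by
    have h1 : Tendsto (fun ℓ : ℝ => 1 / ((1 - ε) * ℓ)) atTop (𝓝 0) :=
      tendsto_const_nhds.div_atTop (tendsto_id.const_mul_atTop h1ε)
    have h2 : Tendsto (fun ℓ : ℝ => Real.exp (2 * ℓ - (ε / 8 * ℓ) ^ 2 / 4)) atTop (𝓝 0) := by
      refine Real.tendsto_exp_atBot.comp ?_
      have h3 : Tendsto (fun ℓ : ℝ => ℓ * (2 - ε ^ 2 / 256 * ℓ)) atTop atBot := by
        refine Tendsto.atTop_mul_atBot₀ tendsto_id ?_
        have h4 : Tendsto (fun ℓ : ℝ => ε ^ 2 / 256 * ℓ) atTop atTop :=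
          tendsto_id.const_mul_atTop (by positivity)
        exact tendsto_atBot_add_const_left _ _ (tendsto_neg_atBot_iff.2 h4)
      refine h3.congr fun ℓ => ?_
      ring
    have h5 := (h1.add h2).const_mul (B * C)
    simpa using h5
  obtain ⟨ℓ1, h1⟩ := eventually_atTop.1 ((Metric.tendsto_nhds.1 L1) (η / 2) (by positivity))
  obtain ⟨ℓ2, h2⟩ := eventually_atTop.1 (L2.eventually (gt_mem_nhds (by positivity : 0 < η / 2)))
  refine ⟨Real.exp (max (max ℓ1 ℓ2) 1), ?_⟩
  intro T t hT Z m hE ht1 ht2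
  have hT0 : 0 < T := (Real.exp_pos _).trans_le hT
  set ℓ := Real.log T with hℓdef
  have hℓ : max (max ℓ1 ℓ2) 1 ≤ ℓ := by
    have := Real.log_le_log (Real.exp_pos _) hT
    rwa [Real.log_exp] at this
  have hℓ1 : ℓ1 ≤ ℓ := ((le_max_left _ _).trans (le_max_left _ _)).trans hℓ
  have hℓ2 : ℓ2 ≤ ℓ := ((le_max_right _ _).trans (le_max_left _ _)).trans hℓ
  have hℓ3 : 1 ≤ ℓ := (le_max_right _ _).trans hℓ
  have hℓ0 : 0 < ℓ := by linarith
  set M := (1 - ε) * ℓ with hMdef
  have hM0 : 0 < M := mul_pos h1ε hℓ0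
  have hMℓ : M ≤ ℓ := by
    rw [hMdef]
    have := mul_pos hε hℓ0
    linarith
  set N := ⌊T ^ ((1 - ε) * b + ε / 8)⌋₊ with hNdef
  have hN : ((1 - ε) * b + ε / 8) * ℓ ≤ Real.log (N + 1) := by
    have h3 : T ^ ((1 - ε) * b + ε / 8) ≤ (N : ℝ) + 1 := (Nat.lt_floor_add_one _).le
    have h4 := Real.log_le_log (Real.rpow_pos_of_pos hT0 _) h3
    rwa [Real.log_rpow hT0] at h4
  have h1' := h1 ℓ hℓ1
  have h2' := h2 ℓ hℓ2
  rw [Real.dist_eq] at h1'
  -- the Dirichlet polynomial of the explicit formula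
  set S : ℝ → ℂ := fun ξ => ∑ n ∈ Finset.Icc 2 N,
    ((lam n * gs (M * ξ - Real.log n) : ℝ) : ℂ) * cexp (((-(t * Real.log n) : ℝ) : ℂ) * I) with hS
  have hScont : Continuous S := by
    rw [hS]
    refine continuous_finsetSum _ fun n _ => ?_
    refine Continuous.mul ?_ continuous_const
    exact continuous_ofReal.comp (continuous_const.mul (gs_cont.comp (by fun_prop)))
  have hFcont : Continuous (fun ξ : ℝ => FF Z m (M * ξ) t) :=
    (FF_cont_u Z m t).comp (by fun_prop)
  have hGcont : Continuous (fun ξ : ℝ => ((ℓ * gs (M * ξ) : ℝ) : ℂ)) :=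
    continuous_ofReal.comp (continuous_const.mul (gs_cont.comp (by fun_prop)))
  have hDP : DP (cf h M) N t = ∫ ξ in (0 : ℝ)..1, (h ξ : ℂ) * S ξ := by
    have h3 : ∀ ξ : ℝ, (h ξ : ℂ) * S ξ = ∑ n ∈ Finset.Icc 2 N,
        (h ξ : ℂ) * (((lam n * gs (M * ξ - Real.log n) : ℝ) : ℂ) *
          cexp (((-(t * Real.log n) : ℝ) : ℂ) * I)) := by
      intro ξ
      rw [hS, Finset.mul_sum]
    simp_rw [h3]
    rw [intervalIntegral.integral_finsetSum]
    · unfold DP cf
      refine Finset.sum_congr rfl fun n _ => ?_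
      have h4 : ∀ ξ : ℝ, (h ξ : ℂ) * (((lam n * gs (M * ξ - Real.log n) : ℝ) : ℂ) *
          cexp (((-(t * Real.log n) : ℝ) : ℂ) * I)) =
          ((lam n * (h ξ * gs (M * ξ - Real.log n)) : ℝ) : ℂ) *
            cexp (((-(t * Real.log n) : ℝ) : ℂ) * I) := by
        intro ξ
        push_cast
        ring
      simp_rw [h4]
      rw [intervalIntegral.integral_mul_const, intervalIntegral.integral_ofReal,
        intervalIntegral.integral_const_mul]
    · intro n _
      refine coef_int hA.meas hB ?_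
      refine Continuous.mul ?_ continuous_const
      exact continuous_ofReal.comp (continuous_const.mul (gs_cont.comp (by fun_prop)))
  have hG : ∫ ξ in (0 : ℝ)..1, (h ξ : ℂ) * ((ℓ * gs (M * ξ) : ℝ) : ℂ) =
      ((ℓ * ∫ ξ in (0 : ℝ)..1, h ξ * gs (M * ξ) : ℝ) : ℂ) := by
    rw [← intervalIntegral.integral_const_mul, ← intervalIntegral.integral_ofReal]
    refine intervalIntegral.integral_congr fun ξ _ => ?_
    push_cast
    ring
  -- the error
  set E : ℝ → ℂ := fun ξ => FF Z m (M * ξ) t - (((ℓ * gs (M * ξ) : ℝ) : ℂ) - S ξ) with hEdef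
  have hEint : ‖∫ ξ in (0 : ℝ)..1, (h ξ : ℂ) * E ξ‖ ≤
      B * C * (1 / M + Real.exp (2 * ℓ - (ε / 8 * ℓ) ^ 2 / 4)) := by
    set K := Real.exp (2 * ℓ - (ε / 8 * ℓ) ^ 2 / 4) with hK
    have hK0 : 0 < K := Real.exp_pos _
    have h3 : ‖∫ ξ in (0 : ℝ)..1, (h ξ : ℂ) * E ξ‖ ≤
        ∫ ξ in (0 : ℝ)..1, B * C * (Real.exp (-(M * ξ)) + K) := by
      refine intervalIntegral.norm_integral_le_of_norm_le zero_le_one ?_ ?_
      · refine Eventually.of_forall fun ξ hξ => ?_
        rw [norm_mul, Complex.norm_real, Real.norm_eq_abs]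
        by_cases hb : b < ξ
        · rw [hA.supp ξ hb, abs_zero, zero_mul]
          have := Real.exp_pos (-(M * ξ))
          positivity
        · push Not at hb
          have hu0 : 0 ≤ M * ξ := mul_nonneg hM0.le hξ.1.le
          have hub : M * ξ ≤ (1 - ε) * b * ℓ := by
            calc M * ξ ≤ M * b := mul_le_mul_of_nonneg_left hb hM0.le
              _ = (1 - ε) * b * ℓ := by rw [hMdef]; ring
          have huℓ : M * ξ ≤ ℓ := by
            calc M * ξ ≤ M * 1 := mul_le_mul_of_nonneg_left hξ.2 hM0.le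
              _ ≤ ℓ := by rw [mul_one]; exact hMℓ
          have h4 := hE.ef (M * ξ) t (ε / 8 * ℓ) N hu0 huℓ ht1 ht2 (by positivity) (by
            refine le_trans ?_ hN
            have : ((1 - ε) * b + ε / 8) * ℓ = (1 - ε) * b * ℓ + ε / 8 * ℓ := by ring
            rw [this]
            linarith)
          have h5 : Real.exp (2 * (M * ξ) - (ε / 8 * ℓ) ^ 2 / 4) ≤ K := by
            rw [hK]
            apply Real.exp_le_exp.2
            linarith
          have h6 : ‖E ξ‖ ≤ C * (Real.exp (-(M * ξ)) + K) := by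
            refine le_trans h4 ?_
            refine mul_le_mul_of_nonneg_left ?_ hC.le
            linarith
          calc |h ξ| * ‖E ξ‖ ≤ B * (C * (Real.exp (-(M * ξ)) + K)) :=
                mul_le_mul (hB ξ) h6 (norm_nonneg _) hB0
            _ = _ := by ring
      · apply Continuous.intervalIntegrable
        fun_prop
    refine h3.trans ?_
    rw [intervalIntegral.integral_const_mul]
    refine mul_le_mul_of_nonneg_left ?_ (by positivity)
    rw [intervalIntegral.integral_add (by apply Continuous.intervalIntegrable; fun_prop)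
      (by simp), intervalIntegral.integral_const]
    have h7 := coef_exp_int hM0
    simp only [sub_zero, one_smul]
    linarith
  have hsum : XX Z m h M t - ((h 0 / (2 * (1 - ε)) : ℝ) - DP (cf h M) N t) =
      (∫ ξ in (0 : ℝ)..1, (h ξ : ℂ) * E ξ) +
        ((ℓ * (∫ ξ in (0 : ℝ)..1, h ξ * gs (M * ξ)) - h 0 / (2 * (1 - ε)) : ℝ) : ℂ) := by
    have h3 : ∀ ξ : ℝ, (h ξ : ℂ) * E ξ = (h ξ : ℂ) * FF Z m (M * ξ) t -
        (h ξ : ℂ) * ((ℓ * gs (M * ξ) : ℝ) : ℂ) + (h ξ : ℂ) * S ξ := by
      intro ξ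
      rw [hEdef]
      ring
    simp_rw [h3]
    rw [intervalIntegral.integral_add ((coef_int hA.meas hB hFcont).sub
      (coef_int hA.meas hB hGcont)) (coef_int hA.meas hB hScont),
      intervalIntegral.integral_sub (coef_int hA.meas hB hFcont) (coef_int hA.meas hB hGcont),
      hG, ← hDP]
    unfold XX
    push_cast
    ring
  rw [hsum]
  refine (norm_add_le _ _).trans ?_
  rw [Complex.norm_real, Real.norm_eq_abs]
  linarith

end TC
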